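import Mathlib

/-!
# Dixon type identities (over `ℚ`) used for `MP_ee25d9_nt`
-/

open Finset

namespace Pool.Agent.MP_ee25d9_nt

theorem choose_down (m k : ℕ) :
    (m.choose k : ℚ) * ((m : ℚ) + 1) = ((m + 1).choose k : ℚ) * ((m : ℚ) + 1 - k) := by
  rcases le_or_gt k (m + 1) with h | h
  · have := Nat.choose_mul_succ_eq m k
    have h2 : ((m.choose k * (m + 1) : ℕ) : ℚ) = (((m + 1).choose k * (m + 1 - k) : ℕ) : ℚ) := by
      exact_mod_cast this
    push_cast [Nat.cast_sub h] at h2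
    exact h2
  · rw [Nat.choose_eq_zero_of_lt h, Nat.choose_eq_zero_of_lt (by omega : m < k)]
    simp

theorem choose_up (m k : ℕ) :
    (m.choose (k + 1) : ℚ) * ((k : ℚ) + 1) = (m.choose k : ℚ) * ((m : ℚ) - k) := by
  rcases le_or_gt k m with h | h
  · have := Nat.choose_succ_right_eq m k
    have h2 : ((m.choose (k + 1) * (k + 1) : ℕ) : ℚ) = ((m.choose k * (m - k) : ℕ) : ℚ) := by
      exact_mod_cast this
    push_cast [Nat.cast_sub h] at h2
    exact h2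
  · rw [Nat.choose_eq_zero_of_lt h, Nat.choose_eq_zero_of_lt (by omega : m < k + 1)]
    simp

/-- signed cube of a binomial coefficient -/
def F (h l : ℕ) : ℚ := (-1) ^ l * (h.choose l : ℚ) ^ 3

/-- partial sums -/
def P (h s : ℕ) : ℚ := ∑ l ∈ range s, F h l

/-- certificate -/
def rho (h l : ℚ) : ℚ :=
  (-28*h^5 - 220*h^4 - 682*h^3 - 1042*h^2 - 784*h - 232) +
  (78*h^4 + 483*h^3 + 1107*h^2 + 1113*h + 414) * l +
  (-87*h^3 - 396*h^2 - 594*h - 294) * l^2 + (45*h^2 + 132*h + 96) * l^3 + (-9*h - 12) * l^4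

/-- certificate -/
def eta (h s : ℚ) : ℚ :=
  (-28*h^5 - 278*h^4 - 1102*h^3 - 2180*h^2 - 2152*h - 848) +
  (78*h^4 + 627*h^3 + 1881*h^2 + 2496*h + 1236) * s +
  (-87*h^3 - 522*h^2 - 1035*h - 678) * s^2 + (45*h^2 + 174*h + 165) * s^3 + (-9*h - 15) * s^4

/-- certificate -/
def tau (h j : ℚ) : ℚ :=
  (-1/2*h^4 - 1/2*h^3 + 21/2*h^2 + 59/2*h + 21) + (-2*h^3 - 24*h^2 - 66*h - 50) * j +
  (9*h^2 + 39*h + 36) * j^2 + (-6*h - 8) * j^3

/-- certificate -/
def Y (h s : ℚ) : ℚ :=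
  (-684*h^6 - 6993*h^5 - 29482*h^4 - 65610*h^3 - 81286*h^2 - 53151*h - 14326) * s +
  (837*h^5 + 7101*h^4 + 23853*h^3 + 39672*h^2 + 32679*h + 10668) * s^2 +
  (-549*h^4 - 3672*h^3 - 9123*h^2 - 9984*h - 4062) * s^3 +
  (189*h^3 + 918*h^2 + 1473*h + 780) * s^4 + (-27*h^2 - 81*h - 60) * s^5

theorem rho_id (h l : ℚ) :
    (h+2)^2*((h+1)*(h+2))^3 + 3*(3*h+2)*(3*h+4)*((h+1-l)*(h+2-l))^3 =
      -rho h (l+1) * (h+2-l)^3 - l^3 * rho h l := by
  unfold rho; ring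

theorem eta_id (h s : ℚ) :
    3*(3*h+5)*(3*h+7)*((h+1-s)*(h+2-s))^3 + (h+1)^2*((h+1)*(h+2))^3 =
      -eta h (s+1) * s^3 - (h+1-s)^3 * eta h s := by
  unfold eta; ring

theorem Y_id (h s : ℚ) :
    Y h (s+1) - Y h s = (3*h+5)*(3*h+7)*rho h s - (3*h+2)*(3*h+4)*eta h (s+1) := by
  unfold Y rho eta; ring

theorem tau_id (h j : ℚ) :
    j^2 * rho h j - (h+2-j)^2 * rho h (h+2-j) =
      2 * (-(h+2-j)^3 * tau h (j+1) - j^3 * tau h j) := by
  unfold rho tau; ring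

/-- telescoper -/
def Gc (h l : ℕ) : ℚ :=
  (-1) ^ l * (l : ℚ) ^ 3 * rho h l * (((h + 2).choose l : ℚ) / (((h : ℚ) + 1) * ((h : ℚ) + 2))) ^ 3

theorem choose_two_down (h l : ℕ) : (h.choose l : ℚ) =
    ((h + 2).choose l : ℚ) / (((h : ℚ) + 1) * ((h : ℚ) + 2)) *
      (((h : ℚ) + 1 - l) * ((h : ℚ) + 2 - l)) := by
  have hn1 : ((h : ℚ) + 1) ≠ 0 := by positivity
  have hn2 : ((h : ℚ) + 2) ≠ 0 := by positivity
  have e1 := choose_down (h + 1) l
  have e0 := choose_down h l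
  push_cast at e1
  rw [show (h : ℚ) + 1 + 1 = h + 2 by ring] at e1
  field_simp
  linear_combination ((h : ℚ) + 2) * e0 + ((h : ℚ) + 1 - l) * e1

theorem dixon_ct (h l : ℕ) :
    ((h : ℚ) + 2) ^ 2 * F (h + 2) l + 3 * (3 * h + 2) * (3 * h + 4) * F h l =
      Gc h (l + 1) - Gc h l := by
  have hn1 : ((h : ℚ) + 1) ≠ 0 := by positivity
  have hn2 : ((h : ℚ) + 2) ≠ 0 := by positivity
  set c : ℚ := ((h + 2).choose l : ℚ) / (((h : ℚ) + 1) * ((h : ℚ) + 2)) with hc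
  have h2 : ((h + 2).choose l : ℚ) = c * (((h : ℚ) + 1) * ((h : ℚ) + 2)) := by
    rw [hc]; field_simp
  have h0 : (h.choose l : ℚ) = c * (((h : ℚ) + 1 - l) * ((h : ℚ) + 2 - l)) := choose_two_down h l
  have hup : (((h + 2).choose (l + 1) : ℚ) / (((h : ℚ) + 1) * ((h : ℚ) + 2))) * ((l : ℚ) + 1) =
      c * ((h : ℚ) + 2 - l) := by
    have := choose_up (h + 2) l
    push_cast at this
    rw [hc, div_mul_eq_mul_div, this]
    ring
  have hG : Gc h (l + 1) = -((-1) ^ l * rho h (l + 1) * (c * ((h : ℚ) + 2 - l)) ^ 3) := by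
    unfold Gc
    rw [← hup]
    push_cast
    ring
  rw [hG]
  unfold Gc F
  rw [← hc, h2, h0]
  have := rho_id h l
  linear_combination ((-1) ^ l * c ^ 3) * this

theorem P_rec (h s : ℕ) :
    ((h : ℚ) + 2) ^ 2 * P (h + 2) s + 3 * (3 * h + 2) * (3 * h + 4) * P h s = Gc h s := by
  unfold P
  rw [Finset.mul_sum, Finset.mul_sum, ← Finset.sum_add_distrib,
    Finset.sum_congr rfl (fun l _ => dixon_ct h l), Finset.sum_range_sub]
  simp [Gc]

theorem F_symm {h : ℕ} (hodd : h % 2 = 1) {l : ℕ} (hl : l ≤ h) : F h (h - l) = -F h l := by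
  unfold F
  rw [Nat.choose_symm hl]
  have : (-1 : ℚ) ^ (h - l) = -(-1) ^ l := by
    have h1 : (-1 : ℚ) ^ (h - l) * (-1) ^ l = -1 := by
      rw [← pow_add, Nat.sub_add_cancel hl]
      exact Odd.neg_one_pow (Nat.odd_iff.mpr hodd)
    have h2 : (-1 : ℚ) ^ l * (-1) ^ l = 1 := by
      rw [← pow_add, ← two_mul, pow_mul]; norm_num
    calc (-1 : ℚ) ^ (h - l) = (-1 : ℚ) ^ (h - l) * ((-1) ^ l * (-1) ^ l) := by rw [h2, mul_one]
      _ = ((-1 : ℚ) ^ (h - l) * (-1) ^ l) * (-1) ^ l := by ring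
      _ = _ := by rw [h1]; ring
  rw [this]; ring

theorem F_zero_of_lt {h l : ℕ} (hl : h < l) : F h l = 0 := by
  unfold F; rw [Nat.choose_eq_zero_of_lt hl]; norm_num

theorem P_full {h : ℕ} (hodd : h % 2 = 1) : P h (h + 1) = 0 := by
  have h1 : P h (h + 1) = ∑ l ∈ range (h + 1), F h (h - l) := by
    unfold P
    rw [← Finset.sum_range_reflect]
    apply Finset.sum_congr rfl
    intro l hl
    rw [show h + 1 - 1 - l = h - l by omega]
  have h2 : P h (h + 1) = -P h (h + 1) := by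
    calc P h (h + 1) = ∑ l ∈ range (h + 1), F h (h - l) := h1
      _ = ∑ l ∈ range (h + 1), -F h l :=
        Finset.sum_congr rfl (fun l hl => F_symm hodd (Nat.lt_succ_iff.mp (mem_range.mp hl)))
      _ = -P h (h + 1) := by rw [Finset.sum_neg_distrib]; rfl
  linarith

theorem P_symm {h : ℕ} (hodd : h % 2 = 1) {s : ℕ} (hs : s ≤ h + 1) : P h (h + 1 - s) = P h s := by
  have h1 : P h (h + 1) = P h (h + 1 - s) + ∑ l ∈ range s, F h (h + 1 - s + l) := by
    unfold P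
    have : h + 1 = (h + 1 - s) + s := by omega
    conv_lhs => rw [this]
    rw [Finset.sum_range_add]
  have h2 : ∑ l ∈ range s, F h (h + 1 - s + l) = -P h s := by
    rw [← Finset.sum_range_reflect]
    unfold P
    rw [← Finset.sum_neg_distrib]
    apply Finset.sum_congr rfl
    intro l hl
    have hl' := mem_range.mp hl
    rw [show h + 1 - s + (s - 1 - l) = h - l by omega]
    exact F_symm hodd (by omega)
  rw [P_full hodd, h2] at h1
  linarith

/-! ## The harmonic sum -/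

/-- `∑_j (-1)^j binom(h,j)^3 H_j` -/
def B (h : ℕ) : ℚ := ∑ j ∈ range (h + 1), F h j * harmonic j

theorem B_eq_of_le {h N : ℕ} (hN : h + 1 ≤ N) : B h = ∑ j ∈ range N, F h j * harmonic j := by
  unfold B
  apply Finset.sum_subset (Finset.range_mono hN)
  intro j _ hj
  rw [F_zero_of_lt (by rw [mem_range] at hj; omega), zero_mul]

/-- auxiliary summand -/
def Qc (h j : ℕ) : ℚ :=
  (-1) ^ j * (j : ℚ) ^ 2 * rho h j * (((h + 2).choose j : ℚ) / (((h : ℚ) + 1) * ((h : ℚ) + 2))) ^ 3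

theorem Gc_div (h j : ℕ) : Gc h (j + 1) / ((j : ℚ) + 1) = Qc h (j + 1) := by
  have : ((j : ℚ) + 1) ≠ 0 := by positivity
  unfold Gc Qc
  push_cast
  field_simp

theorem sum_Qc {h : ℕ} (hodd : h % 2 = 1) : ∑ j ∈ range (h + 3), Qc h j = 0 := by
  have hn1 : ((h : ℚ) + 1) ≠ 0 := by positivity
  have hn2 : ((h : ℚ) + 2) ≠ 0 := by positivity
  set g : ℕ → ℚ := fun j => 2 * ((-1) ^ j * (j : ℚ) ^ 3 * tau h j *
    (((h + 2).choose j : ℚ) / (((h : ℚ) + 1) * ((h : ℚ) + 2))) ^ 3) with hg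
  have key : ∀ j ∈ range (h + 3), Qc h j + Qc h (h + 2 - j) = g (j + 1) - g j := by
    intro j hj
    have hj' : j ≤ h + 2 := by rw [mem_range] at hj; omega
    have hsgn : (-1 : ℚ) ^ (h + 2 - j) = -(-1) ^ j := by
      have h1 : (-1 : ℚ) ^ (h + 2 - j) * (-1) ^ j = -1 := by
        rw [← pow_add, Nat.sub_add_cancel hj']
        exact Odd.neg_one_pow (Nat.odd_iff.mpr (by omega))
      have h2 : (-1 : ℚ) ^ j * (-1) ^ j = 1 := by
        rw [← pow_add, ← two_mul, pow_mul]; norm_num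
      calc (-1 : ℚ) ^ (h + 2 - j) = (-1 : ℚ) ^ (h + 2 - j) * ((-1) ^ j * (-1) ^ j) := by
            rw [h2, mul_one]
        _ = ((-1 : ℚ) ^ (h + 2 - j) * (-1) ^ j) * (-1) ^ j := by ring
        _ = _ := by rw [h1]; ring
    set c : ℚ := ((h + 2).choose j : ℚ) / (((h : ℚ) + 1) * ((h : ℚ) + 2)) with hc
    have hup : (((h + 2).choose (j + 1) : ℚ) / (((h : ℚ) + 1) * ((h : ℚ) + 2))) * ((j : ℚ) + 1) =
        c * ((h : ℚ) + 2 - j) := by
      have := choose_up (h + 2) j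
      push_cast at this
      rw [hc, div_mul_eq_mul_div, this]
      ring
    have hg1 : g (j + 1) = 2 * (-(-1) ^ j * tau h (j + 1) * (c * ((h : ℚ) + 2 - j)) ^ 3) := by
      rw [hg, ← hup]
      simp only
      push_cast
      ring
    have hcast : ((h + 2 - j : ℕ) : ℚ) = (h : ℚ) + 2 - j := by
      rw [Nat.cast_sub hj']; push_cast; ring
    rw [hg1, hg]
    simp only
    unfold Qc
    rw [Nat.choose_symm hj', hsgn, hcast, ← hc]
    have := tau_id h j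
    linear_combination ((-1) ^ j * c ^ 3) * this
  have hsum : ∑ j ∈ range (h + 3), (Qc h j + Qc h (h + 2 - j)) = 0 := by
    rw [Finset.sum_congr rfl key, Finset.sum_range_sub]
    simp [hg]
  rw [Finset.sum_add_distrib] at hsum
  have hrefl : ∑ j ∈ range (h + 3), Qc h (h + 2 - j) = ∑ j ∈ range (h + 3), Qc h j := by
    rw [← Finset.sum_range_reflect (fun j => Qc h j)]
    apply Finset.sum_congr rfl
    intro j _
    rw [show h + 3 - 1 - j = h + 2 - j by omega]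
  rw [hrefl] at hsum
  linarith

theorem B_rec {h : ℕ} (hodd : h % 2 = 1) :
    ((h : ℚ) + 2) ^ 2 * B (h + 2) + 3 * (3 * h + 2) * (3 * h + 4) * B h = 0 := by
  rw [B_eq_of_le (h := h + 2) (N := h + 3) (by omega), B_eq_of_le (h := h) (N := h + 3) (by omega),
    Finset.mul_sum, Finset.mul_sum, ← Finset.sum_add_distrib]
  have key : ∀ j ∈ range (h + 3), ((h : ℚ) + 2) ^ 2 * (F (h + 2) j * harmonic j) +
      3 * (3 * h + 2) * (3 * h + 4) * (F h j * harmonic j) =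
      (harmonic (j + 1) * Gc h (j + 1) - harmonic j * Gc h j) - Qc h (j + 1) := by
    intro j _
    have h1 := dixon_ct h j
    rw [← Gc_div, harmonic_succ]
    push_cast
    have : ((j : ℚ) + 1) ≠ 0 := by positivity
    field_simp
    linear_combination (((j : ℚ) + 1) * harmonic j) * h1
  rw [Finset.sum_congr rfl key, Finset.sum_sub_distrib, Finset.sum_range_sub (fun j => harmonic j * Gc h j)]
  have hQ := sum_Qc hodd
  have h3 : ∑ j ∈ range (h + 3), Qc h (j + 1) = ∑ j ∈ range (h + 3), Qc h j := by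
    have h4 := Finset.sum_range_succ' (fun j => Qc h j) (h + 3)
    have h5 := Finset.sum_range_succ (fun j => Qc h j) (h + 3)
    have h6 : Qc h 0 = 0 := by simp [Qc]
    have h7 : Qc h (h + 3) = 0 := by simp [Qc]
    rw [h6, add_zero] at h4
    rw [h7, add_zero] at h5
    rw [← h4, h5]
  rw [h3, hQ]
  simp [Gc]

/-! ## The nested sum -/

/-- `(-1)^s / (s binom(h,s))^3` -/
def w (h s : ℕ) : ℚ := (-1) ^ s / ((s : ℚ) * (h.choose s : ℚ)) ^ 3

/-- `∑_{s=1}^h w(h,s) P(h,s)` -/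
def U (h : ℕ) : ℚ := ∑ i ∈ range h, w h (i + 1) * P h (i + 1)

/-- telescoper for the nested sum -/
def Xc (h i : ℕ) : ℚ := -(eta h (i + 1)) / (((h : ℚ) + 1) * ((h : ℚ) + 2)) ^ 3 *
  ((-1) ^ i / (h.choose i : ℚ) ^ 3)

theorem nested_ct {h i : ℕ} (hi : i < h) :
    3 * ((h : ℚ) + 2) ^ 2 * (3 * h + 5) * (3 * h + 7) * (w (h + 2) (i + 1) * P (h + 2) (i + 1)) =
      3 * (3 * h + 2) * (3 * h + 4) * (h + 1) ^ 2 * (w h (i + 1) * P h (i + 1)) -
      3 * (3 * h + 2) * (3 * h + 4) * (Xc h (i + 1) * P h (i + 1 + 1) - Xc h i * P h (i + 1)) +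
      3 / (((h : ℚ) + 1) * ((h : ℚ) + 2)) ^ 3 * (Y h ((i + 1 : ℕ) + 1) - Y h (i + 1 : ℕ)) := by
  have hn1 : ((h : ℚ) + 1) ≠ 0 := by positivity
  have hn2 : ((h : ℚ) + 2) ≠ 0 := by positivity
  set s : ℕ := i + 1 with hs
  have hsh : s ≤ h := by omega
  set σ : ℚ := (-1) ^ s with hσ
  have hσ2 : σ * σ = 1 := by
    rw [hσ, ← pow_add, ← two_mul, pow_mul]; norm_num
  have hs0 : (s : ℚ) ≠ 0 := by rw [hs]; positivity
  set b : ℚ := (h.choose s : ℚ) with hb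
  have hb0 : b ≠ 0 := by
    rw [hb]; exact_mod_cast (Nat.choose_pos hsh).ne'
  set x : ℚ := (h : ℚ) + 1 - s with hx
  have hsle : (s : ℚ) ≤ (h : ℚ) := by exact_mod_cast hsh
  have hx0 : x ≠ 0 := by rw [hx]; linarith
  have hx1 : x + 1 ≠ 0 := by rw [hx]; linarith
  have hxx : (h : ℚ) + 2 - s = x + 1 := by rw [hx]; ring
  -- binomials
  have hC2 : ((h + 2).choose s : ℚ) = b * (((h : ℚ) + 1) * ((h : ℚ) + 2)) / (x * (x + 1)) := by
    have h1 := choose_two_down h s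
    rw [hxx, ← hx, ← hb] at h1
    rw [h1]
    field_simp
  have hCi : (h.choose i : ℚ) = b * s / x := by
    have h1 := choose_up h i
    have h2 : ((h : ℚ) - i) = x := by rw [hx, hs]; push_cast; ring
    rw [h2] at h1
    have h3 : ((i : ℚ) + 1) = (s : ℚ) := by rw [hs]; push_cast; ring
    rw [h3] at h1
    rw [hb, hs] at *
    field_simp
    linarith
  have hσi : (-1 : ℚ) ^ i = -σ := by rw [hσ, hs, pow_succ]; ring
  have hP2 : ((h : ℚ) + 2) ^ 2 * P (h + 2) s = Gc h s - 3 * (3 * h + 2) * (3 * h + 4) * P h s := by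
    have := P_rec h s
    linarith
  set N3 : ℚ := (((h : ℚ) + 1) * ((h : ℚ) + 2)) ^ 3 with hN3
  have hN30 : N3 ≠ 0 := by rw [hN3]; positivity
  set iN : ℚ := 1 / N3 with hiN
  have hiN1 : iN * N3 = 1 := by rw [hiN]; field_simp
  set W : ℚ := w h s with hW
  have hWe : W = σ / ((s : ℚ) * b) ^ 3 := rfl
  have hWs : W * (s : ℚ) ^ 3 * (σ * b ^ 3) = 1 := by
    rw [hWe]
    field_simp
    linear_combination hσ2
  have hG : (x * (x + 1)) ^ 3 * Gc h s = σ * (s : ℚ) ^ 3 * rho h s * b ^ 3 := by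
    unfold Gc
    rw [hC2, ← hσ]
    field_simp
  have hPs : P h (s + 1) = P h s + σ * b ^ 3 := by
    unfold P
    rw [Finset.sum_range_succ]
    rfl
  have hw2 : w (h + 2) s = W * (x * (x + 1)) ^ 3 * iN := by
    rw [hWe, hiN, hN3]
    unfold w
    rw [hC2, ← hσ]
    field_simp
  have hX1 : Xc h s = -(eta h (s + 1)) * iN * ((s : ℚ) ^ 3 * W) := by
    rw [hWe, hiN, hN3]
    unfold Xc
    rw [← hσ, ← hb]
    field_simp
  have hX0 : Xc h i = eta h s * iN * (x ^ 3 * W) := by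
    rw [hWe, hiN, hN3]
    unfold Xc
    rw [hCi, hσi, show ((i : ℚ) + 1) = (s : ℚ) by rw [hs]; push_cast; ring]
    field_simp
  have hcalc : 3 * ((h : ℚ) + 2) ^ 2 * (3 * h + 5) * (3 * h + 7) * (w (h + 2) s * P (h + 2) s) =
      3 * (3 * h + 5) * (3 * h + 7) * w (h + 2) s * (((h : ℚ) + 2) ^ 2 * P (h + 2) s) := by ring
  have h3N : (3 : ℚ) / N3 = 3 * iN := by rw [hiN]; ring
  rw [hcalc, hP2, hPs, hw2, hX1, hX0, Y_id, h3N]
  have hE := eta_id h s
  rw [hxx, ← hx, ← hN3] at hE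
  linear_combination (3 * (3 * (h : ℚ) + 5) * (3 * h + 7) * iN * W) * hG +
    (3 * (3 * (h : ℚ) + 5) * (3 * h + 7) * iN * rho h s -
      3 * (3 * (h : ℚ) + 2) * (3 * h + 4) * iN * eta h (s + 1)) * hWs -
    (3 * (3 * (h : ℚ) + 2) * (3 * h + 4) * W * P h s * iN) * hE +
    (3 * (3 * (h : ℚ) + 2) * (3 * h + 4) * (h + 1) ^ 2 * W * P h s) * hiN1

theorem U_rec {h : ℕ} (hodd : h % 2 = 1) :
    ((h : ℚ) + 2) ^ 2 * (3 * h + 5) * (3 * h + 7) * U (h + 2) =
      (3 * h + 2) * (3 * h + 4) * (h + 1) ^ 2 * U h := by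
  have hn1 : ((h : ℚ) + 1) ≠ 0 := by positivity
  have hn2 : ((h : ℚ) + 2) ≠ 0 := by positivity
  have hU2 : U (h + 2) = ∑ i ∈ range h, w (h + 2) (i + 1) * P (h + 2) (i + 1) +
      w (h + 2) (h + 1) * P (h + 2) (h + 1) + w (h + 2) (h + 2) * P (h + 2) (h + 2) := by
    unfold U
    rw [Finset.sum_range_succ, Finset.sum_range_succ]
  have hsum : 3 * ((h : ℚ) + 2) ^ 2 * (3 * h + 5) * (3 * h + 7) *
      ∑ i ∈ range h, w (h + 2) (i + 1) * P (h + 2) (i + 1) =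
      3 * (3 * h + 2) * (3 * h + 4) * (h + 1) ^ 2 * U h -
      3 * (3 * h + 2) * (3 * h + 4) * (Xc h h * P h (h + 1) - Xc h 0 * P h (0 + 1)) +
      3 / (((h : ℚ) + 1) * ((h : ℚ) + 2)) ^ 3 * (Y h ((h : ℕ) + 1) - Y h 1) := by
    rw [Finset.mul_sum, Finset.sum_congr rfl (fun i hi => nested_ct (mem_range.mp hi)),
      Finset.sum_add_distrib, Finset.sum_sub_distrib, ← Finset.mul_sum, ← Finset.mul_sum,
      ← Finset.mul_sum]
    have e1 : ∑ i ∈ range h, (Xc h (i + 1) * P h (i + 1 + 1) - Xc h i * P h (i + 1)) =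
        Xc h h * P h (h + 1) - Xc h 0 * P h (0 + 1) :=
      Finset.sum_range_sub (fun i => Xc h i * P h (i + 1)) h
    have e2 : ∑ i ∈ range h, (Y h ((i + 1 : ℕ) + 1) - Y h (i + 1 : ℕ)) =
        Y h ((h : ℕ) + 1) - Y h 1 := by
      have := Finset.sum_range_sub (fun i : ℕ => Y h ((i : ℚ) + 1)) h
      push_cast at this ⊢
      rw [this]
      simp
    rw [e1, e2]
    rfl
  have hodd2 : (h + 2) % 2 = 1 := by omega
  have hPfull := P_full hodd2
  have hP3 : P (h + 2) (h + 3) = P (h + 2) (h + 2) + F (h + 2) (h + 2) := by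
    unfold P; rw [Finset.sum_range_succ]
  have hP2' : P (h + 2) (h + 2) = P (h + 2) (h + 1) + F (h + 2) (h + 1) := by
    unfold P; rw [Finset.sum_range_succ]
  have sg1 : (-1 : ℚ) ^ (h + 1) = 1 := Even.neg_one_pow (Nat.even_iff.mpr (by omega))
  have sg2 : (-1 : ℚ) ^ (h + 2) = -1 := Odd.neg_one_pow (Nat.odd_iff.mpr (by omega))
  have hF2 : F (h + 2) (h + 2) = -1 := by
    unfold F; rw [sg2, Nat.choose_self]; norm_num
  have hc1 : ((h + 2).choose (h + 1) : ℚ) = (h : ℚ) + 2 := by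
    have : (h + 2).choose (h + 1) = h + 2 := Nat.choose_succ_self_right (h + 1)
    rw [this]; push_cast; ring
  have hF1 : F (h + 2) (h + 1) = ((h : ℚ) + 2) ^ 3 := by
    unfold F; rw [sg1, hc1]; ring
  have hPa : P (h + 2) (h + 2) = 1 := by
    rw [show h + 2 + 1 = h + 3 by ring] at hPfull
    rw [hPfull, hF2] at hP3
    linarith
  have hPb : P (h + 2) (h + 1) = 1 - ((h : ℚ) + 2) ^ 3 := by
    rw [hPa, hF1] at hP2'
    linarith
  have hw1 : w (h + 2) (h + 1) = 1 / (((h : ℚ) + 1) * ((h : ℚ) + 2)) ^ 3 := by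
    unfold w; rw [sg1, hc1]; push_cast; ring
  have hw2 : w (h + 2) (h + 2) = -1 / ((h : ℚ) + 2) ^ 3 := by
    unfold w; rw [sg2, Nat.choose_self]; push_cast; ring
  have hX0 : Xc h 0 = -(eta h 1) / (((h : ℚ) + 1) * ((h : ℚ) + 2)) ^ 3 := by
    unfold Xc; simp
  have hP1 : P h (0 + 1) = 1 := by
    unfold P F; simp
  rw [P_full hodd, hX0, hP1] at hsum
  have hfinal : 3 * (((h : ℚ) + 2) ^ 2 * (3 * h + 5) * (3 * h + 7) * U (h + 2)) =
      3 * ((3 * h + 2) * (3 * h + 4) * (h + 1) ^ 2 * U h) := by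
    rw [hU2, mul_add, mul_add, mul_add, mul_add]
    have : 3 * (((h : ℚ) + 2) ^ 2 * (3 * h + 5) * (3 * h + 7) *
        ∑ i ∈ range h, w (h + 2) (i + 1) * P (h + 2) (i + 1)) =
        3 * ((h : ℚ) + 2) ^ 2 * (3 * h + 5) * (3 * h + 7) *
      ∑ i ∈ range h, w (h + 2) (i + 1) * P (h + 2) (i + 1) := by ring
    rw [this, hsum, hPa, hPb, hw1, hw2]
    unfold Y eta
    field_simp
    ring
  linarith

end Pool.Agent.MP_ee25d9_nt
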