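import Mathlib
import Pool.Agent.Lib.PadicCong
import Pool.Agent.MP_ee25d9_nt.Ident

/-!
# Local congruences for `MP_ee25d9_nt`
-/

open Finset Pool.Agent.Lib.PadicCong

namespace Pool.Agent.MP_ee25d9_nt

variable {p : ℕ} [hp : Fact p.Prime]

theorem not_dvd_of_lt {n : ℕ} (h0 : 0 < n) (hn : n < p) : ¬ p ∣ n :=
  Nat.not_dvd_of_pos_of_lt h0 hn

theorem I_harmonic {j : ℕ} (hj : j < p) : I p (harmonic j) := by
  unfold harmonic
  apply I.sum
  intro i hi
  have := mem_range.mp hi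
  have h1 : ((i : ℚ) + 1) = ((i + 1 : ℕ) : ℚ) := by push_cast; ring
  have h2 := I.inv_nat (p := p) (n := i + 1) (not_dvd_of_lt (by omega) (by omega))
  exact h2

theorem I_F (h l : ℕ) : I p (F h l) := by
  unfold F
  have h1 : I p ((-1 : ℚ)) := I.one.neg
  exact (h1.pow l).mul ((I.nat _).pow 3)

theorem I_P (h s : ℕ) : I p (P h s) := I.sum fun l _ => I_F h l

theorem I_B {h : ℕ} (hh : h < p) : I p (B h) := by
  unfold B
  apply I.sum
  intro j hj
  have := mem_range.mp hj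
  exact (I_F h j).mul (I_harmonic (by omega))

theorem not_dvd_choose {h s : ℕ} (hh : h < p) (hs : s ≤ h) : ¬ p ∣ h.choose s := by
  intro hd
  have h1 := Nat.choose_mul_factorial_mul_factorial hs
  have h2 : p ∣ h.factorial := by
    rw [← h1]
    exact Dvd.dvd.mul_right (Dvd.dvd.mul_right hd _) _
  exact absurd ((hp.out.dvd_factorial).mp h2) (by omega)

theorem I_w {h s : ℕ} (hh : h < p) (hs0 : 0 < s) (hs : s ≤ h) : I p (w h s) := by
  unfold w
  rw [div_eq_mul_inv]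
  have h1 : I p ((-1 : ℚ)) := I.one.neg
  refine (h1.pow s).mul ?_
  rw [← inv_pow, mul_inv]
  exact ((I.inv_nat (not_dvd_of_lt hs0 (by omega))).mul (I.inv_nat (not_dvd_choose hh hs))).pow 3

theorem I_U {h : ℕ} (hh : h < p) : I p (U h) := by
  unfold U
  apply I.sum
  intro i hi
  have := mem_range.mp hi
  exact (I_w hh (by omega) (by omega)).mul (I_P h _)

/-- `p` divides `B h` for odd `h < p` with `p ≤ 3 h - 2`. -/
theorem V_B (m : ℕ) : 2 * m + 1 < p → p ≤ 6 * m + 1 → V p 1 (B (2 * m + 1)) := by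
  induction m with
  | zero =>
    intro h1 h2
    have := hp.out.one_lt
    omega
  | succ m ih =>
    intro h1 h2
    have hrec := B_rec (h := 2 * m + 1) (by omega)
    have e : 2 * (m + 1) + 1 = 2 * m + 1 + 2 := by ring
    rw [e]
    have h3 : ((2 * m + 1 : ℕ) : ℚ) + 2 = ((2 * m + 3 : ℕ) : ℚ) := by push_cast; ring
    have hnd : ¬ p ∣ (2 * m + 3) := not_dvd_of_lt (by omega) (by omega)
    have hnd2 : ¬ p ∣ (2 * m + 3) ^ 2 := fun hd => hnd (hp.out.dvd_of_dvd_pow hd)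
    apply V.cancel_nat hnd2
    have h4 : (((2 * m + 3) ^ 2 : ℕ) : ℚ) * B (2 * m + 1 + 2) =
        -(3 * ((6 * m + 5 : ℕ) : ℚ) * ((6 * m + 7 : ℕ) : ℚ) * B (2 * m + 1)) := by
      push_cast at hrec ⊢
      linarith
    rw [h4]
    apply V.neg
    by_cases h5 : p ≤ 6 * m + 1
    · exact V.I_mul (((I.ofNat 3).mul (I.nat _)).mul (I.nat _)) (ih (by omega) h5)
    · have hodd : ¬ 2 ∣ p := by
        intro hd
        have := (Nat.prime_dvd_prime_iff_eq Nat.prime_two hp.out).mp hd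
        omega
      have h3' : ¬ 3 ∣ p := by
        intro hd
        have := (Nat.prime_dvd_prime_iff_eq Nat.prime_three hp.out).mp hd
        omega
      have hcases : p = 6 * m + 5 ∨ p = 6 * m + 7 := by omega
      have hB := I_B (p := p) (h := 2 * m + 1) (by omega)
      rcases hcases with hc | hc
      · have hV : V p 1 ((6 * m + 5 : ℕ) : ℚ) := by rw [← hc]; exact V.p_self
        have : (3 * ((6 * m + 5 : ℕ) : ℚ) * ((6 * m + 7 : ℕ) : ℚ) * B (2 * m + 1)) =
          ((6 * m + 5 : ℕ) : ℚ) * (3 * ((6 * m + 7 : ℕ) : ℚ) * B (2 * m + 1)) := by ring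
        rw [this]
        exact hV.mul_I (((I.ofNat 3).mul (I.nat _)).mul hB)
      · have hV : V p 1 ((6 * m + 7 : ℕ) : ℚ) := by rw [← hc]; exact V.p_self
        have : (3 * ((6 * m + 5 : ℕ) : ℚ) * ((6 * m + 7 : ℕ) : ℚ) * B (2 * m + 1)) =
          ((6 * m + 7 : ℕ) : ℚ) * (3 * ((6 * m + 5 : ℕ) : ℚ) * B (2 * m + 1)) := by ring
        rw [this]
        exact hV.mul_I (((I.ofNat 3).mul (I.nat _)).mul hB)

/-- `p` divides `U h` for odd `h` with `2 h < p ≤ 3 h - 2`. -/
theorem V_U (m : ℕ) : 2 * (2 * m + 1) < p → p ≤ 6 * m + 1 → V p 1 (U (2 * m + 1)) := by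
  induction m with
  | zero =>
    intro h1 h2
    have := hp.out.one_lt
    omega
  | succ m ih =>
    intro h1 h2
    have hrec := U_rec (h := 2 * m + 1) (by omega)
    have e : 2 * (m + 1) + 1 = 2 * m + 1 + 2 := by ring
    rw [e]
    have hodd : ¬ 2 ∣ p := by
      intro hd
      have := (Nat.prime_dvd_prime_iff_eq Nat.prime_two hp.out).mp hd
      omega
    have hnd : ¬ p ∣ (2 * m + 3) := not_dvd_of_lt (by omega) (by omega)
    have hnd2 : ¬ p ∣ (2 * m + 3) ^ 2 := fun hd => hnd (hp.out.dvd_of_dvd_pow hd)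
    have hnd3 : ¬ p ∣ (6 * m + 8) := by
      rintro ⟨k, hk⟩
      have hk2 : k < 2 := by
        by_contra hcon
        have : p * 2 ≤ p * k := Nat.mul_le_mul_left p (by omega)
        omega
      interval_cases k <;> omega
    have hnd4 : ¬ p ∣ (6 * m + 10) := by
      rintro ⟨k, hk⟩
      have hk2 : k < 2 := by
        by_contra hcon
        have : p * 2 ≤ p * k := Nat.mul_le_mul_left p (by omega)
        omega
      interval_cases k <;> omega
    have hndall : ¬ p ∣ (2 * m + 3) ^ 2 * (6 * m + 8) * (6 * m + 10) := by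
      intro hd
      rcases (hp.out.dvd_mul).mp hd with h5 | h5
      · rcases (hp.out.dvd_mul).mp h5 with h6 | h6
        · exact hnd2 h6
        · exact hnd3 h6
      · exact hnd4 h5
    apply V.cancel_nat hndall
    have h4 : (((2 * m + 3) ^ 2 * (6 * m + 8) * (6 * m + 10) : ℕ) : ℚ) * U (2 * m + 1 + 2) =
        ((6 * m + 5 : ℕ) : ℚ) * ((6 * m + 7 : ℕ) : ℚ) * ((2 * m + 2 : ℕ) : ℚ) ^ 2 *
          U (2 * m + 1) := by
      push_cast at hrec ⊢
      linear_combination hrec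
    rw [h4]
    by_cases h5 : p ≤ 6 * m + 1
    · exact V.I_mul (((I.nat _).mul (I.nat _)).mul ((I.nat _).pow 2)) (ih (by omega) h5)
    · have h3' : ¬ 3 ∣ p := by
        intro hd
        have := (Nat.prime_dvd_prime_iff_eq Nat.prime_three hp.out).mp hd
        omega
      have hcases : p = 6 * m + 5 ∨ p = 6 * m + 7 := by omega
      have hB := I_U (p := p) (h := 2 * m + 1) (by omega)
      rcases hcases with hc | hc
      · have hV : V p 1 ((6 * m + 5 : ℕ) : ℚ) := by rw [← hc]; exact V.p_self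
        have : ((6 * m + 5 : ℕ) : ℚ) * ((6 * m + 7 : ℕ) : ℚ) * ((2 * m + 2 : ℕ) : ℚ) ^ 2 *
          U (2 * m + 1) =
          ((6 * m + 5 : ℕ) : ℚ) * (((6 * m + 7 : ℕ) : ℚ) * ((2 * m + 2 : ℕ) : ℚ) ^ 2 *
          U (2 * m + 1)) := by ring
        rw [this]
        exact hV.mul_I (((I.nat _).mul ((I.nat _).pow 2)).mul hB)
      · have hV : V p 1 ((6 * m + 7 : ℕ) : ℚ) := by rw [← hc]; exact V.p_self
        have : ((6 * m + 5 : ℕ) : ℚ) * ((6 * m + 7 : ℕ) : ℚ) * ((2 * m + 2 : ℕ) : ℚ) ^ 2 *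
          U (2 * m + 1) =
          ((6 * m + 7 : ℕ) : ℚ) * (((6 * m + 5 : ℕ) : ℚ) * ((2 * m + 2 : ℕ) : ℚ) ^ 2 *
          U (2 * m + 1)) := by ring
        rw [this]
        exact hV.mul_I (((I.nat _).mul ((I.nat _).pow 2)).mul hB)

/-! ## The sequence `u` -/

/-- `binom(2j,j) / 4^j` -/
def u (j : ℕ) : ℚ := ((2 * j).choose j : ℚ) / 4 ^ j

theorem u_succ (j : ℕ) : u (j + 1) * (2 * ((j : ℚ) + 1)) = u j * (2 * j + 1) := by
  unfold u
  have h := Nat.succ_mul_centralBinom_succ j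
  rw [Nat.centralBinom_eq_two_mul_choose, Nat.centralBinom_eq_two_mul_choose] at h
  have h2 : ((j : ℚ) + 1) * ((2 * (j + 1)).choose (j + 1) : ℚ) =
      2 * (2 * (j : ℚ) + 1) * ((2 * j).choose j : ℚ) := by exact_mod_cast h
  rw [pow_succ]
  field_simp
  linear_combination (2 : ℚ) * h2

theorem I_u (hp2 : p ≠ 2) (j : ℕ) : I p (u j) := by
  unfold u
  rw [div_eq_mul_inv]
  refine (I.nat _).mul ?_
  rw [← inv_pow]
  apply I.pow
  have h4 : ¬ p ∣ 4 := by
    intro hd
    have : p ∣ 2 ^ 2 := by simpa using hd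
    have h2 := hp.out.dvd_of_dvd_pow this
    exact hp2 ((Nat.prime_dvd_prime_iff_eq hp.out Nat.prime_two).mp h2)
  have := I.inv_nat h4
  exact_mod_cast this

end Pool.Agent.MP_ee25d9_nt
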