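import Mathlib
import Pool.Agent.Lib.PadicCong
import Pool.Agent.MP_ee25d9_nt.Local

/-!
# Main congruence for `MP_ee25d9_nt`
-/

open Finset Pool.Agent.Lib.PadicCong

namespace Pool.Agent.MP_ee25d9_nt

variable {p : ℕ} [hp : Fact p.Prime]

/-- `y = p n + p / 2` -/
def yy (p n : ℕ) : ℚ := (p : ℚ) * n + p / 2

/-- linear factor -/
def Lf (p h n a : ℕ) : ℚ :=
  1 - yy p n * (harmonic h - harmonic (h - a)) - (p : ℚ) * n * harmonic a

theorem not_dvd_two {h : ℕ} (hph : p = 2 * h + 1) : ¬ p ∣ 2 := by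
  intro hd
  have := Nat.le_of_dvd (by norm_num) hd
  have := hp.out.two_le
  omega

theorem V_x (n : ℕ) : V p 1 ((p : ℚ) * n) := V.p_self.mul_I (I.nat n)

theorem V_y {h : ℕ} (hph : p = 2 * h + 1) (n : ℕ) : V p 1 (yy p n) := by
  unfold yy
  apply (V_x n).add
  rw [div_eq_mul_inv]
  have := I.inv_nat (p := p) (not_dvd_two hph)
  exact V.p_self.mul_I (by exact_mod_cast this)

theorem V_L {h : ℕ} (hph : p = 2 * h + 1) (n : ℕ) {a : ℕ} (ha : a ≤ h) :
    V p 1 (Lf p h n a - 1) := by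
  have e : Lf p h n a - 1 = -(yy p n * (harmonic h - harmonic (h - a)) +
      (p : ℚ) * n * harmonic a) := by unfold Lf; ring
  rw [e]
  apply V.neg
  apply V.add
  · exact (V_y hph n).mul_I ((I_harmonic (by omega)).sub (I_harmonic (by omega)))
  · exact (V_x n).mul_I (I_harmonic (by omega))

theorem I_L {h : ℕ} (hph : p = 2 * h + 1) (n : ℕ) {a : ℕ} (ha : a ≤ h) : I p (Lf p h n a) := by
  have := (V_L hph n ha).toI.add I.one
  simpa using this

theorem L_succ {h : ℕ} (n : ℕ) {a : ℕ} (ha : a + 1 ≤ h) :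
    Lf p h n (a + 1) = Lf p h n a - yy p n / ((h : ℚ) - a) - (p : ℚ) * n / ((a : ℚ) + 1) := by
  unfold Lf
  obtain ⟨k, hk⟩ : ∃ k, h = a + 1 + k := Nat.exists_eq_add_of_le ha
  have e1 : h - a = k + 1 := by omega
  have e2 : h - (a + 1) = k := by omega
  have e3 : (h : ℚ) - a = k + 1 := by rw [hk]; push_cast; ring
  rw [e1, e2, e3, harmonic_succ, harmonic_succ]
  push_cast
  ring

theorem u_exp {h : ℕ} (hph : p = 2 * h + 1) (n a : ℕ) : a ≤ h →
    V p 2 (u (p * n + a) - u (p * n) * ((-1) ^ a * (h.choose a : ℚ) * Lf p h n a)) := by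
  have hp2 : p ≠ 2 := by omega
  induction a with
  | zero =>
    intro _
    have : u (p * n + 0) - u (p * n) * ((-1) ^ 0 * (h.choose 0 : ℚ) * Lf p h n 0) = 0 := by
      simp [Lf]
    rw [this]
    exact V.zero 2
  | succ a ih =>
    intro ha
    have ih' := ih (by omega)
    have hnd : ¬ p ∣ 2 * (p * n + a + 1) := by
      intro hd
      rcases (hp.out.dvd_mul).mp hd with h1 | h1
      · exact not_dvd_two hph h1
      · have : p ∣ a + 1 := by
          rw [add_assoc] at h1
          exact (Nat.dvd_add_right (Dvd.intro _ rfl)).mp h1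
        exact not_dvd_of_lt (by omega) (by omega) this
    apply V.cancel_nat hnd
    have hu := u_succ (p * n + a)
    set c : ℚ := (-1) ^ a * (h.choose a : ℚ) with hc
    set c' : ℚ := (-1) ^ a * (h.choose (a + 1) : ℚ) with hc'
    have hcc : c' * ((a : ℚ) + 1) = c * ((h : ℚ) - a) := by
      have := choose_up h a
      rw [hc', hc, mul_assoc, this, mul_assoc]
    have hha : ((h : ℚ) - a) ≠ 0 := by
      have : (a : ℚ) + 1 ≤ h := by exact_mod_cast ha
      linarith
    have ha1 : ((a : ℚ) + 1) ≠ 0 := by positivity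
    have hL := L_succ (p := p) n ha
    have hpq : (p : ℚ) = 2 * h + 1 := by rw [hph]; push_cast; ring
    have hsg : (-1 : ℚ) ^ (a + 1) * (h.choose (a + 1) : ℚ) = -c' := by rw [hc', pow_succ]; ring
    have e : ((2 * (p * n + a + 1) : ℕ) : ℚ) * (u (p * n + (a + 1)) - u (p * n) *
        ((-1) ^ (a + 1) * (h.choose (a + 1) : ℚ) * Lf p h n (a + 1))) =
        ((2 * (p * n + a) + 1 : ℕ) : ℚ) * (u (p * n + a) - u (p * n) * (c * Lf p h n a)) +
        u (p * n) * (2 * (yy p n * (Lf p h n a - 1) * c +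
          (p : ℚ) * n * (Lf p h n (a + 1) - 1) * c')) := by
      rw [hsg, ← add_assoc]
      have hy : yy p n = (p : ℚ) * n + h + 1 / 2 := by unfold yy; rw [hpq]; ring
      push_cast at hu ⊢
      have e1 : c' * ((a : ℚ) + 1) * Lf p h n (a + 1) = c * ((h : ℚ) - a) * Lf p h n a -
          c * yy p n - c' * ((p : ℚ) * n) := by
        rw [hL, mul_sub, mul_sub]
        have e2 : c' * ((a : ℚ) + 1) * (yy p n / ((h : ℚ) - a)) = c * yy p n := by
          rw [hcc]; field_simp
        have e3 : c' * ((a : ℚ) + 1) * ((p : ℚ) * n / ((a : ℚ) + 1)) = c' * ((p : ℚ) * n) := by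
          field_simp
        rw [e2, e3, hcc]
      rw [hy] at e1 ⊢
      linear_combination hu + 2 * u (p * n) * e1
    rw [e]
    apply V.add
    · exact V.I_mul (I.nat _) ih'
    · apply V.I_mul (I_u hp2 _)
      apply V.I_mul (I.ofNat 2)
      have hm1 : I p ((-1 : ℚ)) := I.one.neg
      apply V.add
      · exact ((V_y hph n).mul (V_L hph n (by omega))).mul_I ((hm1.pow a).mul (I.nat _))
      · exact ((V_x n).mul (V_L hph n ha)).mul_I ((hm1.pow a).mul (I.nat _))

theorem u_exp1 {h : ℕ} (hph : p = 2 * h + 1) (n : ℕ) {a : ℕ} (ha : a ≤ h) :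
    V p 1 (u (p * n + a) - u (p * n) * ((-1) ^ a * (h.choose a : ℚ))) := by
  have h1 := (u_exp hph n a ha).mono (by norm_num : 1 ≤ 2)
  have hm1 : I p ((-1 : ℚ)) := I.one.neg
  have h2 : V p 1 (u (p * n) * ((-1) ^ a * (h.choose a : ℚ)) * (Lf p h n a - 1)) :=
    V.I_mul ((I_u (by omega) _).mul ((hm1.pow a).mul (I.nat _))) (V_L hph n ha)
  have := h1.add h2
  have e : u (p * n + a) - u (p * n) * ((-1) ^ a * (h.choose a : ℚ) * Lf p h n a) +
      u (p * n) * ((-1) ^ a * (h.choose a : ℚ)) * (Lf p h n a - 1) =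
      u (p * n + a) - u (p * n) * ((-1) ^ a * (h.choose a : ℚ)) := by ring
  rwa [e] at this

theorem neg_one_pow_cube (a : ℕ) : ((-1 : ℚ) ^ a) ^ 3 = (-1) ^ a := by
  rw [← pow_mul, mul_comm, pow_mul]; norm_num

theorem sum_F_harm_refl {h : ℕ} (hodd : h % 2 = 1) :
    ∑ a ∈ range (h + 1), F h a * harmonic (h - a) = -B h := by
  rw [← Finset.sum_range_reflect]
  unfold B
  rw [← Finset.sum_neg_distrib]
  apply Finset.sum_congr rfl
  intro a ha
  have ha' : a ≤ h := Nat.lt_succ_iff.mp (mem_range.mp ha)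
  rw [show h + 1 - 1 - a = h - a by omega, F_symm hodd ha', show h - (h - a) = a by omega]
  ring

/-- the low part of the inner sum is divisible by `p ^ 2` -/
theorem V_low {h : ℕ} (hph : p = 2 * h + 1) (hodd : h % 2 = 1) (h3 : 3 ≤ h) (n : ℕ) :
    V p 2 (∑ a ∈ range (h + 1), u (p * n + a) ^ 3) := by
  have hp2 : p ≠ 2 := by omega
  have hm1 : I p ((-1 : ℚ)) := I.one.neg
  have hVB : V p 1 (B h) := by
    obtain ⟨m, hm⟩ : ∃ m, h = 2 * m + 1 := ⟨h / 2, by omega⟩
    rw [hm]
    exact V_B m (by omega) (by omega)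
  have key : ∀ a ∈ range (h + 1), V p 2 (u (p * n + a) ^ 3 -
      u (p * n) ^ 3 * (F h a * (1 + 3 * (Lf p h n a - 1)))) := by
    intro a ha
    have ha' : a ≤ h := Nat.lt_succ_iff.mp (mem_range.mp ha)
    have h1 := u_exp hph n a ha'
    have h2 : V p 0 (u (p * n) * ((-1) ^ a * (h.choose a : ℚ) * Lf p h n a)) :=
      ((I_u hp2 _).mul (((hm1.pow a).mul (I.nat _)).mul (I_L hph n ha'))).toV
    have h3' := V.cube_sub h2 h1 (by norm_num)
    have h4 : V p 2 (u (p * n) ^ 3 * F h a * (Lf p h n a + 2) * (Lf p h n a - 1) ^ 2) := by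
      apply V.I_mul
      · exact (((I_u hp2 _).pow 3).mul (I_F h a)).mul ((I_L hph n ha').add (I.ofNat 2))
      · exact (V_L hph n ha').pow 2
    have := h3'.add h4
    simp only [mul_zero, zero_add] at this
    have e : u (p * n + a) ^ 3 - (u (p * n) * ((-1) ^ a * (h.choose a : ℚ) * Lf p h n a)) ^ 3 +
        u (p * n) ^ 3 * F h a * (Lf p h n a + 2) * (Lf p h n a - 1) ^ 2 =
        u (p * n + a) ^ 3 - u (p * n) ^ 3 * (F h a * (1 + 3 * (Lf p h n a - 1))) := by
      unfold F
      rw [mul_pow, mul_pow, mul_pow, neg_one_pow_cube]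
      ring
    rwa [e] at this
  have hsum : V p 2 (∑ a ∈ range (h + 1), u (p * n) ^ 3 *
      (F h a * (1 + 3 * (Lf p h n a - 1)))) := by
    have e : ∑ a ∈ range (h + 1), u (p * n) ^ 3 * (F h a * (1 + 3 * (Lf p h n a - 1))) =
        u (p * n) ^ 3 * (-(3 * ((p : ℚ) * n + yy p n) * B h)) := by
      rw [← Finset.mul_sum]
      congr 1
      have e1 : ∀ a ∈ range (h + 1), F h a * (1 + 3 * (Lf p h n a - 1)) =
          (1 - 3 * yy p n * harmonic h) * F h a + 3 * yy p n * (F h a * harmonic (h - a)) -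
            3 * ((p : ℚ) * n) * (F h a * harmonic a) := by
        intro a _
        unfold Lf
        ring
      rw [Finset.sum_congr rfl e1, Finset.sum_sub_distrib, Finset.sum_add_distrib,
        ← Finset.mul_sum, ← Finset.mul_sum, ← Finset.mul_sum, sum_F_harm_refl hodd]
      have e2 : ∑ a ∈ range (h + 1), F h a = 0 := P_full hodd
      have e3 : ∑ a ∈ range (h + 1), F h a * harmonic a = B h := rfl
      rw [e2, e3]
      ring
    rw [e]
    apply V.I_mul ((I_u hp2 _).pow 3)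
    apply V.neg
    have : V p 1 (3 * ((p : ℚ) * n + yy p n)) :=
      V.I_mul (I.ofNat 3) ((V_x n).add (V_y hph n))
    exact this.mul hVB
  have h5 := (V.sum key).add hsum
  rw [Finset.sum_sub_distrib, sub_add_cancel] at h5
  exact h5

/-- the factor for the high part -/
def ee (h s : ℕ) : ℚ := -((-1) ^ s / ((s : ℚ) * (h.choose s : ℚ)))

theorem I_ee {h s : ℕ} (hh : h < p) (hs0 : 0 < s) (hs : s ≤ h) : I p (ee h s) := by
  unfold ee
  apply I.neg
  rw [div_eq_mul_inv, mul_inv]
  have h1 : I p ((-1 : ℚ)) := I.one.neg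
  exact (h1.pow s).mul ((I.inv_nat (not_dvd_of_lt hs0 (by omega))).mul
    (I.inv_nat (not_dvd_choose hh hs)))

theorem ee_cube (h s : ℕ) : ee h s ^ 3 = -w h s := by
  unfold ee w
  rw [neg_pow, div_pow, neg_one_pow_cube]
  ring

theorem ee_succ {h s : ℕ} (hs0 : 0 < s) (hs : s + 1 ≤ h) :
    ee h (s + 1) * ((h : ℚ) - s) = -(ee h s * s) := by
  unfold ee
  have h1 := choose_up h s
  have hb : (h.choose s : ℚ) ≠ 0 := by exact_mod_cast (Nat.choose_pos (by omega : s ≤ h)).ne'
  have hb1 : (h.choose (s + 1) : ℚ) ≠ 0 := by exact_mod_cast (Nat.choose_pos hs).ne'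
  have hs1 : (s : ℚ) ≠ 0 := by positivity
  have hs2 : (s : ℚ) + 1 ≠ 0 := by positivity
  push_cast
  rw [pow_succ]
  field_simp
  linear_combination (-1 : ℚ) * h1

theorem u_high {h : ℕ} (hph : p = 2 * h + 1) (hodd : h % 2 = 1) (n i : ℕ) : i < h →
    V p 2 (u (p * n + (h + 1 + i)) - u (p * n) * yy p n * ee h (i + 1)) := by
  have hp2 : p ≠ 2 := by omega
  have hpq : (p : ℚ) = 2 * h + 1 := by rw [hph]; push_cast; ring
  have hh0 : (h : ℚ) ≠ 0 := by
    have : 0 < h := by omega
    positivity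
  have nd : ∀ k : ℕ, 0 < k → k < p → ¬ p ∣ (p * n + k) := by
    intro k hk0 hk hd
    exact not_dvd_of_lt hk0 hk ((Nat.dvd_add_right (Dvd.intro _ rfl)).mp hd)
  induction i with
  | zero =>
    intro hi
    apply V.cancel_nat (nd (h + 1) (by omega) (by omega))
    have hu := u_succ (p * n + h)
    have h1 := u_exp1 hph n (le_refl h)
    rw [Nat.choose_self, Odd.neg_one_pow (Nat.odd_iff.mpr hodd)] at h1
    have e1 : ee h (0 + 1) = 1 / h := by
      unfold ee
      rw [zero_add, pow_one, Nat.choose_one_right]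
      push_cast
      ring
    have e : ((p * n + (h + 1) : ℕ) : ℚ) * (u (p * n + (h + 1 + 0)) -
        u (p * n) * yy p n * ee h (0 + 1)) =
        yy p n * (u (p * n + h) - u (p * n) * (-1 * ((1 : ℕ) : ℚ))) -
        u (p * n) * (yy p n * ((p : ℚ) * n + p)) * (1 / h) := by
      have hu2 : u (p * n + (h + 1 + 0)) * ((p : ℚ) * n + h + 1) = u (p * n + h) * yy p n := by
        have : yy p n = (p : ℚ) * n + h + 1 / 2 := by unfold yy; rw [hpq]; ring
        rw [this, show p * n + (h + 1 + 0) = p * n + h + 1 by ring]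
        push_cast at hu
        linear_combination (1 / 2 : ℚ) * hu
      rw [e1]
      have h2 : (p : ℚ) * n + p = ((p : ℚ) * n + h + 1) + h := by
        linear_combination hpq
      rw [h2]
      push_cast
      field_simp
      linear_combination (h : ℚ) * hu2
    rw [e]
    apply V.sub
    · exact (V_y hph n).mul h1
    · have h3 : V p 2 (yy p n * ((p : ℚ) * n + p)) :=
        (V_y hph n).mul ((V_x n).add V.p_self)
      have h4 : I p (1 / (h : ℚ)) := by
        rw [one_div]; exact I.inv_nat (not_dvd_of_lt (by omega) (by omega))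
      exact (V.I_mul (I_u hp2 _) h3).mul_I h4
  | succ i ih =>
    intro hi
    have ih' := ih (by omega)
    apply V.cancel_nat (nd (h + 1 + (i + 1)) (by omega) (by omega))
    have hu := u_succ (p * n + (h + 1 + i))
    have hs := ee_succ (h := h) (s := i + 1) (by omega) (by omega)
    have hhs : (h : ℚ) - (i + 1) ≠ 0 := by
      have : (i : ℚ) + 1 + 1 ≤ h := by exact_mod_cast hi
      linarith
    have e : ((p * n + (h + 1 + (i + 1)) : ℕ) : ℚ) * (u (p * n + (h + 1 + (i + 1))) -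
        u (p * n) * yy p n * ee h (i + 1 + 1)) =
        (yy p n + (i + 1)) * (u (p * n + (h + 1 + i)) - u (p * n) * yy p n * ee h (i + 1)) +
        u (p * n) * (yy p n * (ee h (i + 1) * yy p n - ee h (i + 1 + 1) * ((p : ℚ) * n + p))) := by
      have hu2 : u (p * n + (h + 1 + (i + 1))) * ((p : ℚ) * n + h + 1 + (i + 1)) =
          u (p * n + (h + 1 + i)) * (yy p n + (i + 1)) := by
        have : yy p n = (p : ℚ) * n + h + 1 / 2 := by unfold yy; rw [hpq]; ring
        rw [this, show p * n + (h + 1 + (i + 1)) = p * n + (h + 1 + i) + 1 by ring]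
        push_cast at hu
        linear_combination (1 / 2 : ℚ) * hu
      push_cast at hs ⊢
      have h2 : (p : ℚ) * n + p = ((p : ℚ) * n + h + 1 + (i + 1)) + (h - (i + 1)) := by
        linear_combination hpq
      rw [h2]
      linear_combination hu2 + u (p * n) * yy p n * hs
    rw [e]
    have hy := V_y hph n
    apply V.add
    · apply V.I_mul _ ih'
      have : I p ((i : ℚ) + 1) := (I.nat i).add I.one
      exact hy.toI.add this
    · apply V.I_mul (I_u hp2 _)
      change V p (1 + 1) _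
      apply hy.mul
      apply V.sub
      · exact V.I_mul (I_ee (by omega) (by omega) (by omega)) hy
      · exact V.I_mul (I_ee (by omega) (by omega) (by omega)) ((V_x n).add V.p_self)

theorem V_u_high {h : ℕ} (hph : p = 2 * h + 1) (hodd : h % 2 = 1) (n : ℕ) {i : ℕ} (hi : i < h) :
    V p 1 (u (p * n + (h + 1 + i))) := by
  have h1 := (u_high hph hodd n i hi).mono (by norm_num : 1 ≤ 2)
  have h2 : V p 1 (u (p * n) * yy p n * ee h (i + 1)) :=
    (V.I_mul (I_u (by omega) _) (V_y hph n)).mul_I (I_ee (by omega) (by omega) (by omega))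
  have := h1.add h2
  rwa [sub_add_cancel] at this

theorem sum_range_p {h : ℕ} (hph : p = 2 * h + 1) (g : ℕ → ℚ) :
    ∑ a ∈ range p, g a = ∑ a ∈ range (h + 1), g a + ∑ i ∈ range h, g (h + 1 + i) := by
  have : range p = range ((h + 1) + h) := by rw [hph]; congr 1; ring
  rw [this, Finset.sum_range_add]

/-- inner sum over all digits -/
theorem V_W {h : ℕ} (hph : p = 2 * h + 1) (hodd : h % 2 = 1) (h3 : 3 ≤ h) (n : ℕ) :
    V p 2 (∑ a ∈ range p, u (p * n + a) ^ 3) := by
  rw [sum_range_p hph]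
  apply (V_low hph hodd h3 n).add
  apply V.sum
  intro i hi
  exact ((V_u_high hph hodd n (mem_range.mp hi)).pow 3).mono (by norm_num)

/-- the mixed part -/
theorem V_T {h : ℕ} (hph : p = 2 * h + 1) (hodd : h % 2 = 1) (h3 : 3 ≤ h) (m n : ℕ) :
    V p 4 (∑ i ∈ range h, u (p * m + (h + 1 + i)) ^ 3 *
      ∑ b ∈ range (h - i), u (p * n + b) ^ 3) := by
  have hp2 : p ≠ 2 := by omega
  have hVU : V p 1 (U h) := by
    obtain ⟨k, hk⟩ : ∃ k, h = 2 * k + 1 := ⟨h / 2, by omega⟩
    rw [hk]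
    exact V_U k (by omega) (by omega)
  have key : ∀ i ∈ range h, V p 4 (u (p * m + (h + 1 + i)) ^ 3 *
      ∑ b ∈ range (h - i), u (p * n + b) ^ 3 +
      u (p * m) ^ 3 * yy p m ^ 3 * u (p * n) ^ 3 * (w h (i + 1) * P h (i + 1))) := by
    intro i hi
    have hi' := mem_range.mp hi
    have hA := u_high hph hodd m i hi'
    have hA1 : V p 1 (u (p * m) * yy p m * ee h (i + 1)) :=
      (V.I_mul (I_u hp2 _) (V_y hph m)).mul_I (I_ee (by omega) (by omega) (by omega))
    have hA3 : V p 4 (u (p * m + (h + 1 + i)) ^ 3 - (u (p * m) * yy p m * ee h (i + 1)) ^ 3) :=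
      V.cube_sub hA1 hA (by norm_num)
    have hBI : I p (∑ b ∈ range (h - i), u (p * n + b) ^ 3) :=
      I.sum fun b _ => (I_u hp2 _).pow 3
    have hB : V p 1 (∑ b ∈ range (h - i), u (p * n + b) ^ 3 - u (p * n) ^ 3 * P h (i + 1)) := by
      have hPs : P h (i + 1) = P h (h - i) := by
        rw [← P_symm hodd (by omega : i + 1 ≤ h + 1)]
        congr 1
        omega
      rw [hPs]
      unfold P
      rw [Finset.mul_sum, ← Finset.sum_sub_distrib]
      apply V.sum
      intro b hb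
      have hb' := mem_range.mp hb
      have hm1 : I p ((-1 : ℚ)) := I.one.neg
      have h5 := V.cube_sub (m := 0) (((I_u hp2 (p * n)).mul ((hm1.pow b).mul
        (I.nat (h.choose b)))).toV) (u_exp1 hph n (by omega : b ≤ h)) (by norm_num)
      have e : (u (p * n) * ((-1) ^ b * (h.choose b : ℚ))) ^ 3 = u (p * n) ^ 3 * F h b := by
        unfold F
        rw [mul_pow, mul_pow, neg_one_pow_cube]
      rw [e] at h5
      exact h5
    have h6 : V p 4 ((u (p * m) * yy p m * ee h (i + 1)) ^ 3 *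
        (∑ b ∈ range (h - i), u (p * n + b) ^ 3 - u (p * n) ^ 3 * P h (i + 1))) := by
      have h7 := (hA1.pow 3).mul hB
      exact h7
    have h8 := (hA3.mul_I hBI).add h6
    have e : (u (p * m + (h + 1 + i)) ^ 3 - (u (p * m) * yy p m * ee h (i + 1)) ^ 3) *
        ∑ b ∈ range (h - i), u (p * n + b) ^ 3 +
        (u (p * m) * yy p m * ee h (i + 1)) ^ 3 *
        (∑ b ∈ range (h - i), u (p * n + b) ^ 3 - u (p * n) ^ 3 * P h (i + 1)) =
        u (p * m + (h + 1 + i)) ^ 3 * ∑ b ∈ range (h - i), u (p * n + b) ^ 3 +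
      u (p * m) ^ 3 * yy p m ^ 3 * u (p * n) ^ 3 * (w h (i + 1) * P h (i + 1)) := by
      rw [mul_pow, mul_pow, ee_cube]
      ring
    rwa [e] at h8
  have h9 := V.sum key
  rw [Finset.sum_add_distrib, ← Finset.mul_sum] at h9
  have h10 : V p 4 (u (p * m) ^ 3 * yy p m ^ 3 * u (p * n) ^ 3 *
      ∑ i ∈ range h, w h (i + 1) * P h (i + 1)) := by
    have h11 : V p 3 (u (p * m) ^ 3 * yy p m ^ 3 * u (p * n) ^ 3) :=
      (V.I_mul ((I_u hp2 _).pow 3) ((V_y hph m).pow 3)).mul_I ((I_u hp2 _).pow 3)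
    exact h11.mul hVU
  have := h9.sub h10
  rwa [add_sub_cancel_right] at this

/-- the triangular inner sum -/
theorem V_Z {h : ℕ} (hph : p = 2 * h + 1) (hodd : h % 2 = 1) (h3 : 3 ≤ h) (m n : ℕ) :
    V p 4 (∑ a ∈ range p, u (p * m + a) ^ 3 * ∑ b ∈ range (p - a), u (p * n + b) ^ 3) := by
  rw [sum_range_p hph]
  have e1 : ∑ i ∈ range h, u (p * m + (h + 1 + i)) ^ 3 *
      ∑ b ∈ range (p - (h + 1 + i)), u (p * n + b) ^ 3 =
      ∑ i ∈ range h, u (p * m + (h + 1 + i)) ^ 3 * ∑ b ∈ range (h - i), u (p * n + b) ^ 3 := by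
    apply Finset.sum_congr rfl
    intro i hi
    have := mem_range.mp hi
    rw [show p - (h + 1 + i) = h - i by omega]
  have e2 : ∑ a ∈ range (h + 1), u (p * m + a) ^ 3 * ∑ b ∈ range (p - a), u (p * n + b) ^ 3 =
      (∑ a ∈ range (h + 1), u (p * m + a) ^ 3) * (∑ b ∈ range (h + 1), u (p * n + b) ^ 3) +
      ∑ i ∈ range h, u (p * n + (h + 1 + i)) ^ 3 * ∑ b ∈ range (h - i), u (p * m + b) ^ 3 := by
    have e3 : ∀ a ∈ range (h + 1), u (p * m + a) ^ 3 * ∑ b ∈ range (p - a), u (p * n + b) ^ 3 =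
        u (p * m + a) ^ 3 * (∑ b ∈ range (h + 1), u (p * n + b) ^ 3) +
        ∑ i ∈ range (h - a), u (p * n + (h + 1 + i)) ^ 3 * u (p * m + a) ^ 3 := by
      intro a ha
      have := mem_range.mp ha
      rw [show p - a = (h + 1) + (h - a) by omega, Finset.sum_range_add, mul_add, Finset.mul_sum,
        Finset.mul_sum]
      congr 1
      apply Finset.sum_congr rfl
      intro i _
      ring
    rw [Finset.sum_congr rfl e3, Finset.sum_add_distrib, ← Finset.sum_mul]
    congr 1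
    simp only [Finset.mul_sum]
    apply Finset.sum_comm'
    intro a i
    simp only [mem_range]
    omega
  rw [e1, e2]
  apply V.add
  · apply V.add
    · have := (V_low hph hodd h3 m).mul (V_low hph hodd h3 n)
      exact this
    · exact V_T hph hodd h3 n m
  · exact V_T hph hodd h3 m n

/-! ## Global decomposition -/

theorem sum_tri (N : ℕ) (f : ℕ → ℕ → ℚ) :
    ∑ k ∈ range N, ∑ j ∈ range (k + 1), f j (k - j) = ∑ j ∈ range N, ∑ l ∈ range (N - j), f j l := by
  rw [Finset.sum_sigma', Finset.sum_sigma']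
  refine Finset.sum_nbij' (fun x => ⟨x.2, x.1 - x.2⟩) (fun x => ⟨x.1 + x.2, x.1⟩) ?_ ?_ ?_ ?_ ?_
  · rintro ⟨k, j⟩ hx
    rw [mem_sigma, mem_range, mem_range] at hx ⊢
    simp only at hx ⊢
    omega
  · rintro ⟨k, j⟩ hx
    rw [mem_sigma, mem_range, mem_range] at hx ⊢
    simp only at hx ⊢
    omega
  · rintro ⟨k, j⟩ hx
    rw [mem_sigma, mem_range, mem_range] at hx
    simp only at hx ⊢
    have : j + (k - j) = k := by omega
    rw [this]
  · rintro ⟨k, j⟩ hx
    simp
  · rintro ⟨k, j⟩ hx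
    rfl

theorem sum_range_mul (q N : ℕ) (g : ℕ → ℚ) :
    ∑ j ∈ range (q * N), g j = ∑ j' ∈ range N, ∑ a ∈ range q, g (q * j' + a) := by
  induction N with
  | zero => simp
  | succ N ih =>
    rw [mul_add, mul_one, Finset.sum_range_add, ih, Finset.sum_range_succ]

theorem V_total {h : ℕ} (hph : p = 2 * h + 1) (hodd : h % 2 = 1) (h3 : 3 ≤ h) (N : ℕ) :
    V p 4 (∑ j ∈ range (p * N), ∑ l ∈ range (p * N - j), u j ^ 3 * u l ^ 3) := by
  rw [sum_range_mul]
  apply V.sum
  intro j' hj'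
  have hj := mem_range.mp hj'
  have e : ∀ a ∈ range p, ∑ l ∈ range (p * N - (p * j' + a)), u (p * j' + a) ^ 3 * u l ^ 3 =
      u (p * j' + a) ^ 3 * (∑ l' ∈ range (N - 1 - j'), ∑ b ∈ range p, u (p * l' + b) ^ 3) +
      u (p * j' + a) ^ 3 * ∑ b ∈ range (p - a), u (p * (N - 1 - j') + b) ^ 3 := by
    intro a ha
    have ha' := mem_range.mp ha
    have e1 : p * N - (p * j' + a) = p * (N - 1 - j') + (p - a) := by
      obtain ⟨k, hk⟩ : ∃ k, N = j' + 1 + k := Nat.exists_eq_add_of_le hj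
      have e2 : N - 1 - j' = k := by omega
      rw [e2, hk, mul_add, mul_add, mul_one]
      omega
    rw [← Finset.mul_sum, e1, Finset.sum_range_add, sum_range_mul, mul_add]
  rw [Finset.sum_congr rfl e, Finset.sum_add_distrib, ← Finset.sum_mul]
  apply V.add
  · have h4 := (V_W hph hodd h3 j').mul (V.sum (m := 2) (s := range (N - 1 - j'))
      (fun l' _ => V_W hph hodd h3 l'))
    exact h4
  · exact V_Z hph hodd h3 j' (N - 1 - j')

end Pool.Agent.MP_ee25d9_nt
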